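import Mathlib

/-!
# Cheeger constant of random Cayley graphs of finite Abelian groups

`G` finite Abelian, `Z_1, ..., Z_k` independent and uniform on `G`, `G_k` the `2k`-regular Cayley
multigraph with edges `{g, g + Z_i}`.  We prove that its Cheeger constant is at least of order
`|G| ^ (-1/k)` with high probability as soon as `k - d(G) >= δ k` and `k` is large.

Idea.  For `S ⊆ G` put `out S g = #{x ∈ S : x + g ∉ S}`; this is subadditive in `g`, hence
`out S (2^j g) ≤ 2^j out S g`.  The trivial (Fourier) direction of the Cheeger inequality is applied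
to the long range generators `2^j Z_i`, `j ≤ J`, `2^J ≈ |G|^(1/k)`, with weights `(2/3)^j`.  This
reduces the matter to a lower bound for `∑_i ψ(χ(Z_i))` uniformly over non-trivial characters `χ`,
where `ψ` grows like a power of the distance of `χ(Z_i)` to `1` measured in units of `2^(-J)`.  That
bound follows from a union bound over characters, sorted by their order.
-/

set_option autoImplicit false

open Finset

namespace Pool.Agent.Results.MP_2a19a6_pr.CheegerOrder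


section Deterministic
variable {G : Type*} [AddCommGroup G] [DecidableEq G]

/-- number of `x ∈ S` with `x + g ∉ S` -/
def out (S : Finset G) (g : G) : ℕ := (S.filter (fun x => x + g ∉ S)).card

lemma out_add_le (S : Finset G) (g h : G) : out S (g + h) ≤ out S g + out S h := by
  classical
  unfold out
  have h1 : S.filter (fun x => x + (g + h) ∉ S) ⊆
      S.filter (fun x => x + g ∉ S) ∪ (S.filter (fun x => x + h ∉ S)).image (fun x => x - g) := by
    intro x hx
    simp only [mem_union, mem_filter, mem_image] at hx ⊢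
    obtain ⟨hxS, hx2⟩ := hx
    by_cases hg : x + g ∈ S
    · right
      refine ⟨x + g, ⟨hg, ?_⟩, by abel⟩
      rwa [add_assoc]
    · left; exact ⟨hxS, hg⟩
  calc _ ≤ _ := card_le_card h1
    _ ≤ (S.filter (fun x => x + g ∉ S)).card
        + ((S.filter (fun x => x + h ∉ S)).image (fun x => x - g)).card := card_union_le _ _
    _ ≤ _ := Nat.add_le_add_left card_image_le _

lemma out_zero (S : Finset G) : out S 0 = 0 := by
  simp [out]

lemma out_nsmul_le (S : Finset G) (g : G) (m : ℕ) : out S (m • g) ≤ m * out S g := by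
  induction m with
  | zero => simp [out_zero]
  | succ m ih =>
    rw [add_smul, one_smul]
    calc _ ≤ _ := out_add_le S _ _
      _ ≤ m * out S g + out S g := by gcongr
      _ = _ := by ring

variable [Fintype G]

/-- squared modulus of the Fourier coefficient of the indicator of `S` -/
noncomputable def W (S : Finset G) (χ : AddChar G ℂ) : ℝ := ‖∑ x ∈ S, χ x‖ ^ 2

omit [DecidableEq G] [Fintype G] in
lemma W_nonneg (S : Finset G) (χ : AddChar G ℂ) : 0 ≤ W S χ := by unfold W; positivity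

lemma sum_W_mul (S : Finset G) (g : G) :
    ∑ χ : AddChar G ℂ, (W S χ : ℂ) * χ g
      = (Fintype.card G : ℂ) * ((S.filter (fun x => x + g ∈ S)).card : ℂ) := by
  classical
  have h1 : ∀ χ : AddChar G ℂ, (W S χ : ℂ) * χ g = ∑ a ∈ S, ∑ b ∈ S, χ (a - b + g) := by
    intro χ
    have : (W S χ : ℂ) = (∑ x ∈ S, χ x) * (starRingEnd ℂ) (∑ x ∈ S, χ x) := by
      unfold W
      rw [Complex.mul_conj, Complex.normSq_eq_norm_sq]
    rw [this, map_sum, Finset.sum_mul_sum, Finset.sum_mul]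
    refine Finset.sum_congr rfl fun a _ => ?_
    rw [Finset.sum_mul]
    refine Finset.sum_congr rfl fun b _ => ?_
    rw [← AddChar.map_neg_eq_conj, AddChar.map_add_eq_mul, sub_eq_add_neg, AddChar.map_add_eq_mul]
  simp_rw [h1]
  rw [Finset.sum_comm]
  have h2 : ∀ a ∈ S, ∑ χ : AddChar G ℂ, ∑ b ∈ S, χ (a - b + g)
      = if a + g ∈ S then (Fintype.card G : ℂ) else 0 := by
    intro a _
    rw [Finset.sum_comm]
    have : ∀ b ∈ S, ∑ χ : AddChar G ℂ, χ (a - b + g) = if b = a + g then (Fintype.card G : ℂ) else 0 := by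
      intro b _
      rw [AddChar.sum_apply_eq_ite]
      congr 1
      apply propext
      constructor
      · intro h
        have : a + g - b = 0 := by rw [← h]; abel
        exact (sub_eq_zero.mp this).symm
      · intro h; rw [h]; abel
    rw [Finset.sum_congr rfl this]
    simp
  rw [Finset.sum_congr rfl h2, ← Finset.sum_filter]
  simp [mul_comm]

lemma sum_W_re (S : Finset G) (g : G) :
    ∑ χ : AddChar G ℂ, W S χ * (χ g).re
      = (Fintype.card G : ℝ) * ((S.filter (fun x => x + g ∈ S)).card : ℝ) := by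
  have := congrArg Complex.re (sum_W_mul S g)
  simpa using this

lemma sum_W (S : Finset G) : ∑ χ : AddChar G ℂ, W S χ = (Fintype.card G : ℝ) * (S.card : ℝ) := by
  have := sum_W_re S 0
  simpa using this

lemma sum_W_one_sub (S : Finset G) (g : G) :
    ∑ χ : AddChar G ℂ, W S χ * (1 - (χ g).re) = (Fintype.card G : ℝ) * (out S g : ℝ) := by
  have h1 := sum_W_re S g
  have h2 := sum_W S
  have h3 : ((S.filter (fun x => x + g ∈ S)).card : ℝ) + (out S g : ℝ) = S.card := by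
    unfold out
    exact_mod_cast Finset.card_filter_add_card_filter_not (s := S) (fun x => x + g ∈ S)
  simp_rw [mul_sub, mul_one, Finset.sum_sub_distrib]
  rw [h1, h2, ← h3]
  ring

omit [DecidableEq G] [Fintype G] in
lemma W_zero (S : Finset G) : W S (0 : AddChar G ℂ) = (S.card : ℝ) ^ 2 := by
  unfold W
  simp

/-- The key deterministic inequality: easy direction of Cheeger for long range generators. -/
lemma key_ineq {k : ℕ} (Z : Fin k → G) (J : ℕ) (lam : ℕ → ℝ) (hlam : ∀ j, 0 ≤ lam j) (γ : ℝ)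
    (hγ0 : 0 ≤ γ)
    (hγ : ∀ χ : AddChar G ℂ, χ ≠ 0 →
      γ ≤ ∑ i, ∑ j ∈ range (J + 1), lam j * (1 - (χ (2 ^ j • Z i)).re))
    (S : Finset G) (hS : 2 * S.card ≤ Fintype.card G) :
    γ * S.card / 2 ≤ (∑ j ∈ range (J + 1), lam j * 2 ^ j) * ∑ i, (out S (Z i) : ℝ) := by
  classical
  have hn : 0 < (Fintype.card G : ℝ) := by
    have : 0 < Fintype.card G := Fintype.card_pos
    exact_mod_cast this
  have h1 : (Fintype.card G : ℝ) * ∑ i, ∑ j ∈ range (J + 1), lam j * (out S (2 ^ j • Z i) : ℝ)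
      = ∑ χ : AddChar G ℂ, W S χ * ∑ i, ∑ j ∈ range (J + 1), lam j * (1 - (χ (2 ^ j • Z i)).re) := by
    simp_rw [Finset.mul_sum]
    rw [Finset.sum_comm' (s := univ) (t := fun _ => univ) (t' := univ) (s' := fun _ => univ)]
    · refine Finset.sum_congr rfl fun i _ => ?_
      rw [Finset.sum_comm]
      refine Finset.sum_congr rfl fun j _ => ?_
      have := sum_W_one_sub S (2 ^ j • Z i)
      calc _ = lam j * ((Fintype.card G : ℝ) * (out S (2 ^ j • Z i) : ℝ)) := by ring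
        _ = lam j * ∑ χ : AddChar G ℂ, W S χ * (1 - (χ (2 ^ j • Z i)).re) := by rw [this]
        _ = _ := by
          rw [Finset.mul_sum]
          refine Finset.sum_congr rfl fun χ _ => ?_
          ring
    · simp
  have h2 : (Fintype.card G : ℝ) * (γ * S.card / 2) ≤
      ∑ χ : AddChar G ℂ, W S χ * ∑ i, ∑ j ∈ range (J + 1), lam j * (1 - (χ (2 ^ j • Z i)).re) := by
    have h3 : ∑ χ ∈ (univ : Finset (AddChar G ℂ)).erase 0, W S χ * γ ≤
      ∑ χ ∈ (univ : Finset (AddChar G ℂ)).erase 0,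
        W S χ * ∑ i, ∑ j ∈ range (J + 1), lam j * (1 - (χ (2 ^ j • Z i)).re) := by
      refine Finset.sum_le_sum fun χ hχ => ?_
      exact mul_le_mul_of_nonneg_left (hγ χ (by simpa using hχ)) (W_nonneg S χ)
    have h4 : ∑ χ ∈ (univ : Finset (AddChar G ℂ)).erase 0,
        W S χ * ∑ i, ∑ j ∈ range (J + 1), lam j * (1 - (χ (2 ^ j • Z i)).re) ≤
        ∑ χ : AddChar G ℂ, W S χ * ∑ i, ∑ j ∈ range (J + 1), lam j * (1 - (χ (2 ^ j • Z i)).re) := by
      refine Finset.sum_le_sum_of_subset_of_nonneg (erase_subset _ _) fun χ _ _ => ?_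
      refine mul_nonneg (W_nonneg S χ) ?_
      refine Finset.sum_nonneg fun i _ => Finset.sum_nonneg fun j _ => mul_nonneg (hlam j) ?_
      have : (χ (2 ^ j • Z i)).re ≤ ‖χ (2 ^ j • Z i)‖ := Complex.re_le_norm _
      rw [AddChar.norm_apply] at this
      linarith
    have h5 : ∑ χ ∈ (univ : Finset (AddChar G ℂ)).erase 0, W S χ
        = (Fintype.card G : ℝ) * S.card - (S.card : ℝ) ^ 2 := by
      have := Finset.add_sum_erase (univ : Finset (AddChar G ℂ)) (W S) (mem_univ 0)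
      rw [sum_W, W_zero] at this
      linarith
    rw [← Finset.sum_mul, h5] at h3
    have hS' : 2 * (S.card : ℝ) ≤ Fintype.card G := by exact_mod_cast hS
    have h6 : (Fintype.card G : ℝ) * (γ * S.card / 2) ≤
        ((Fintype.card G : ℝ) * S.card - (S.card : ℝ) ^ 2) * γ := by
      have hc : (0 : ℝ) ≤ S.card := by positivity
      nlinarith [mul_nonneg (mul_nonneg hγ0 hc) (sub_nonneg.mpr hS')]
    linarith
  rw [← h1] at h2
  have h7 := le_of_mul_le_mul_left h2 hn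
  refine h7.trans ?_
  rw [Finset.mul_sum]
  refine Finset.sum_le_sum fun i _ => ?_
  rw [Finset.sum_mul]
  refine Finset.sum_le_sum fun j _ => ?_
  have := out_nsmul_le S (Z i) (2 ^ j)
  have h8 : (out S (2 ^ j • Z i) : ℝ) ≤ 2 ^ j * (out S (Z i) : ℝ) := by exact_mod_cast this
  calc _ ≤ lam j * (2 ^ j * (out S (Z i) : ℝ)) := mul_le_mul_of_nonneg_left h8 (hlam j)
    _ = _ := by ring

end Deterministic


section Fibre
variable {G : Type*} [AddCommGroup G] [DecidableEq G] [Fintype G]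

/-- every fibre of a character of order `ℓ` has at most `|G|/ℓ` elements -/
lemma order_mul_fibre_le (χ : AddChar G ℂ) (z : ℂ) :
    orderOf χ * ((univ : Finset G).filter (fun g => χ g = z)).card ≤ Fintype.card G := by
  classical
  by_cases hne : ∃ g₀, χ g₀ = z
  · obtain ⟨g₀, hg₀⟩ := hne
    let K : AddSubgroup G :=
      { carrier := {g | χ g = 1}
        zero_mem' := by simp
        add_mem' := by
          intro a b ha hb
          simp only [Set.mem_ofPred_eq] at ha hb ⊢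
          rw [AddChar.map_add_eq_mul, ha, hb, mul_one]
        neg_mem' := by
          intro a ha
          simp only [Set.mem_ofPred_eq] at ha ⊢
          rw [AddChar.map_neg_eq_inv, ha, inv_one] }
    have h1 : ((univ : Finset G).filter (fun g => χ g = z)).card = Nat.card K := by
      rw [Nat.card_eq_fintype_card, Fintype.card_subtype]
      apply Finset.card_bij (fun g _ => g - g₀)
      · intro a ha
        simp only [mem_filter, mem_univ, true_and] at ha ⊢
        change χ (a - g₀) = 1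
        rw [AddChar.map_sub_eq_div, ha, hg₀]
        rw [div_self]
        rw [← hg₀]
        have := AddChar.norm_apply χ g₀
        intro h; rw [h] at this; simp at this
      · intro a _ b _ h
        simpa using h
      · intro b hb
        simp only [mem_filter, mem_univ, true_and] at hb
        have hb' : χ b = 1 := hb
        refine ⟨b + g₀, ?_, by simp⟩
        simp only [mem_filter, mem_univ, true_and]
        rw [AddChar.map_add_eq_mul, hb', hg₀, one_mul]
    have h2 : orderOf χ ∣ K.index := by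
      apply orderOf_dvd_of_pow_eq_one
      ext g
      rw [AddChar.pow_apply]
      have := AddSubgroup.nsmul_index_mem K g
      have h3 : χ (K.index • g) = 1 := this
      rw [AddChar.map_nsmul_eq_pow] at h3
      simpa using h3
    have h3 : 0 < K.index := Nat.pos_of_ne_zero AddSubgroup.index_ne_zero_of_finite
    have h4 := Nat.le_of_dvd h3 h2
    rw [h1, ← Nat.card_eq_fintype_card, ← AddSubgroup.card_mul_index K, mul_comm]
    exact Nat.mul_le_mul_left _ h4
  · push Not at hne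
    rw [Finset.filter_false_of_mem (fun g _ => hne g)]
    simp

/-- characters killed by `ℓ` : at most `ℓ ^ d(G)` -/
lemma card_char_order_le (ℓ : ℕ) (hℓ : 0 < ℓ) :
    ((univ : Finset (AddChar G ℂ)).filter (fun χ => orderOf χ = ℓ)).card ≤ ℓ ^ AddGroup.rank G := by
  classical
  obtain ⟨S, hS, hcl⟩ := AddGroup.rank_spec G
  have : NeZero ℓ := ⟨hℓ.ne'⟩
  have hroot : ∀ χ : AddChar G ℂ, orderOf χ = ℓ → ∀ g, (χ g) ^ ℓ = 1 := by
    intro χ hχ g
    have h1 : χ ^ ℓ = 1 := by rw [← hχ]; exact pow_orderOf_eq_one χ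
    have h2 := congrArg (fun (c : AddChar G ℂ) => c g) h1
    simpa [AddChar.pow_apply] using h2
  let T : Finset ℂ := Polynomial.nthRootsFinset ℓ (1 : ℂ)
  have hT : T.card ≤ ℓ := by
    have := Polynomial.card_nthRoots ℓ (1 : ℂ)
    calc T.card ≤ (Polynomial.nthRoots ℓ (1 : ℂ)).card := by
          simp only [T, Polynomial.nthRootsFinset]
          exact Multiset.toFinset_card_le _
      _ ≤ ℓ := this
  have hinj : ((univ : Finset (AddChar G ℂ)).filter (fun χ => orderOf χ = ℓ)).card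
      ≤ (Fintype.piFinset (fun _ : S => T)).card := by
    apply Finset.card_le_card_of_injOn (fun χ => fun s : S => χ s)
    · intro χ hχ
      simp only [coe_filter, mem_univ, true_and, Set.mem_ofPred_eq] at hχ
      simp only [Finset.mem_coe, Fintype.mem_piFinset]
      intro s
      simp only [T]
      rw [Polynomial.mem_nthRootsFinset hℓ]
      exact hroot χ hχ s
    · intro χ _ χ' _ h
      have hs : ∀ s ∈ S, χ s = χ' s := fun s hs => congrFun h ⟨s, hs⟩
      let E : AddSubgroup G :=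
        { carrier := {g | χ g = χ' g}
          zero_mem' := by simp
          add_mem' := by
            intro a b ha hb
            simp only [Set.mem_ofPred_eq] at ha hb ⊢
            rw [AddChar.map_add_eq_mul, AddChar.map_add_eq_mul, ha, hb]
          neg_mem' := by
            intro a ha
            simp only [Set.mem_ofPred_eq] at ha ⊢
            rw [AddChar.map_neg_eq_inv, AddChar.map_neg_eq_inv, ha] }
      have hE : E = ⊤ := by
        rw [eq_top_iff, ← hcl, AddSubgroup.closure_le]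
        intro s hs'
        exact hs s hs'
      ext g
      have : g ∈ E := by rw [hE]; trivial
      exact this
  calc _ ≤ _ := hinj
    _ = T.card ^ S.card := by simp
    _ ≤ ℓ ^ S.card := Nat.pow_le_pow_left hT _
    _ = _ := by rw [hS]

end Fibre


noncomputable def psir (J : ℕ) (θ : ℝ) : ℝ :=
  ∑ j ∈ range (J + 1), (3 / 2 : ℝ) ^ (J - j) * (1 - Real.cos (2 * Real.pi * (2 ^ j * θ)))

noncomputable def psi (J : ℕ) (z : ℂ) : ℝ :=
  ∑ j ∈ range (J + 1), (3 / 2 : ℝ) ^ (J - j) * (1 - (z ^ (2 ^ j)).re)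

lemma psi_exp (J : ℕ) (θ : ℝ) :
    psi J (Complex.exp (2 * Real.pi * Complex.I * θ)) = psir J θ := by
  unfold psi psir
  refine Finset.sum_congr rfl fun j _ => ?_
  rw [← Complex.exp_nat_mul]
  have : ((2 ^ j : ℕ) : ℂ) * (2 * Real.pi * Complex.I * θ) =
      ((2 * Real.pi * (2 ^ j * θ) : ℝ) : ℂ) * Complex.I := by
    push_cast; ring
  rw [this, Complex.exp_ofReal_mul_I_re]

lemma one_sub_cos_ge (x : ℝ) (hx : |x| ≤ 1 / 2) : 8 * x ^ 2 ≤ 1 - Real.cos (2 * Real.pi * x) := by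
  have hpi := Real.pi_pos
  have h1 : |2 * Real.pi * x| ≤ Real.pi := by
    rw [abs_mul, abs_of_pos (by positivity : 0 < 2 * Real.pi)]
    nlinarith
  have h3 := Real.cos_le_one_sub_mul_cos_sq h1
  have h4 : 2 / Real.pi ^ 2 * (2 * Real.pi * x) ^ 2 = 8 * x ^ 2 := by
    field_simp; ring
  linarith

lemma term_nonneg (J j : ℕ) (θ : ℝ) :
    0 ≤ (3 / 2 : ℝ) ^ (J - j) * (1 - Real.cos (2 * Real.pi * (2 ^ j * θ))) := by
  have := Real.cos_le_one (2 * Real.pi * (2 ^ j * θ))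
  exact mul_nonneg (by positivity) (by linarith)

lemma exp_neg_le (σ : ℝ) (hσ : 4 ≤ σ) (J : ℕ) (θ : ℝ) (h0 : 0 < θ) (h1 : θ ≤ 1 / 2) :
    Real.exp (-(σ ^ 2 * psir J θ)) ≤ 4 / (1 + σ * (2 ^ J * θ)) ^ 2 := by
  set u : ℝ := 2 ^ J * θ with hu
  have hu0 : 0 < u := by positivity
  have hσ0 : 0 < σ := by linarith
  by_cases hcase : u ≤ 1 / 4
  · have h2 : 8 * u ^ 2 ≤ psir J θ := by
      have h3 : (3 / 2 : ℝ) ^ (J - J) * (1 - Real.cos (2 * Real.pi * (2 ^ J * θ))) ≤ psir J θ := by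
        unfold psir
        exact Finset.single_le_sum (f := fun j => (3 / 2 : ℝ) ^ (J - j) *
          (1 - Real.cos (2 * Real.pi * (2 ^ j * θ)))) (fun j _ => term_nonneg J j θ)
          (Finset.mem_range.mpr (Nat.lt_succ_self J))
      have h4 := one_sub_cos_ge u (by rw [abs_of_pos hu0]; linarith)
      simp only [Nat.sub_self, pow_zero, one_mul] at h3
      exact h4.trans h3
    have h5 : Real.exp (-(σ ^ 2 * psir J θ)) ≤ Real.exp (-(8 * (σ * u) ^ 2)) := by
      apply Real.exp_le_exp.mpr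
      nlinarith [sq_nonneg σ]
    refine h5.trans ?_
    have h6 : 1 + 8 * (σ * u) ^ 2 ≤ Real.exp (8 * (σ * u) ^ 2) := by
      have := Real.add_one_le_exp (8 * (σ * u) ^ 2)
      linarith
    rw [Real.exp_neg, ← one_div, div_le_div_iff₀ (Real.exp_pos _) (by positivity)]
    nlinarith [sq_nonneg (σ * u - 1), sq_nonneg (σ * u)]
  · push Not at hcase
    have hex : ∃ j, 1 / 4 < 2 ^ j * θ := ⟨J, hcase⟩
    classical
    set j := Nat.find hex with hj
    have hj1 : 1 / 4 < 2 ^ j * θ := Nat.find_spec hex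
    have hjJ : j ≤ J := Nat.find_min' hex hcase
    have hj2 : 2 ^ j * θ ≤ 1 / 2 := by
      rcases Nat.eq_zero_or_pos j with h | h
      · rw [h]; simpa using h1
      · have := Nat.find_min hex (m := j - 1) (by omega)
        push Not at this
        have h3 : (2 : ℝ) ^ j = 2 * 2 ^ (j - 1) := by
          rw [← pow_succ']; congr 1; omega
        rw [h3]; linarith
    set i := J - j with hi
    have h2 : (3 / 2 : ℝ) ^ i * (1 / 2) ≤ psir J θ := by
      have h3 : (3 / 2 : ℝ) ^ (J - j) * (1 - Real.cos (2 * Real.pi * (2 ^ j * θ))) ≤ psir J θ := by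
        unfold psir
        exact Finset.single_le_sum (f := fun j => (3 / 2 : ℝ) ^ (J - j) *
          (1 - Real.cos (2 * Real.pi * (2 ^ j * θ)))) (fun j _ => term_nonneg J j θ)
          (Finset.mem_range.mpr (Nat.lt_succ_of_le hjJ))
      have h4 := one_sub_cos_ge (2 ^ j * θ) (by rw [abs_of_pos (by positivity)]; exact hj2)
      have h5 : (1 : ℝ) / 2 ≤ 1 - Real.cos (2 * Real.pi * (2 ^ j * θ)) := by
        nlinarith
      refine le_trans ?_ h3
      exact mul_le_mul_of_nonneg_left h5 (by positivity)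
    have hui : u ≤ 2 ^ i / 2 := by
      have : (2 : ℝ) ^ J = 2 ^ i * 2 ^ j := by rw [← pow_add]; congr 1; omega
      rw [hu, this, mul_assoc]
      have : (0 : ℝ) < 2 ^ i := by positivity
      nlinarith
    have hui2 : 4 * u ^ 2 ≤ 4 ^ i := by
      have : (4 : ℝ) ^ i = (2 ^ i) ^ 2 := by rw [← pow_mul, mul_comm, pow_mul]; norm_num
      rw [this]
      nlinarith
    set X : ℝ := σ ^ 2 * ((3 / 2 : ℝ) ^ i * (1 / 2)) with hX
    have hX0 : 0 < X := by positivity
    have h5 : Real.exp (-(σ ^ 2 * psir J θ)) ≤ Real.exp (-X) := by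
      apply Real.exp_le_exp.mpr
      nlinarith [sq_nonneg σ]
    refine h5.trans ?_
    have h6 := Real.pow_div_factorial_le_exp X hX0.le 4
    have h7 : (4 : ℕ).factorial = 24 := rfl
    rw [h7] at h6
    have hX4 : X ^ 4 = σ ^ 8 * ((81 / 16 : ℝ) ^ i) / 16 := by
      have : ((3 / 2 : ℝ) ^ i) ^ 4 = (81 / 16 : ℝ) ^ i := by
        rw [← pow_mul, mul_comm, pow_mul]; norm_num
      rw [hX, mul_pow, mul_pow, this]; ring
    have h8 : (4 : ℝ) ^ i ≤ (81 / 16 : ℝ) ^ i := pow_le_pow_left₀ (by norm_num) (by norm_num) i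
    have h9 : σ ^ 8 * u ^ 2 / 96 ≤ Real.exp X := by
      refine le_trans ?_ h6
      rw [hX4]
      have hσ8 : 0 < σ ^ 8 := by positivity
      push_cast
      have : 4 * u ^ 2 ≤ (81 / 16 : ℝ) ^ i := hui2.trans h8
      have h10 : σ ^ 8 * (4 * u ^ 2) ≤ σ ^ 8 * (81 / 16 : ℝ) ^ i :=
        mul_le_mul_of_nonneg_left this hσ8.le
      linarith
    have h11 : (1 + σ * u) ^ 2 ≤ 4 * (σ * u) ^ 2 := by
      have : 1 ≤ σ * u := by nlinarith
      nlinarith
    rw [Real.exp_neg, ← one_div, div_le_div_iff₀ (Real.exp_pos _) (by positivity)]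
    have h12 : (96 : ℝ) ≤ σ ^ 6 := by
      have : (4 : ℝ) ^ 6 ≤ σ ^ 6 := pow_le_pow_left₀ (by norm_num) hσ 6
      linarith [this, (by norm_num : (4 : ℝ) ^ 6 = 4096)]
    have h13 : (σ * u) ^ 2 * 96 ≤ σ ^ 8 * u ^ 2 := by
      have : 0 ≤ σ ^ 2 * u ^ 2 := by positivity
      nlinarith
    linarith

lemma psir_symm (J : ℕ) (θ : ℝ) : psir J (1 - θ) = psir J θ := by
  unfold psir
  refine Finset.sum_congr rfl fun j _ => ?_
  have : 2 * Real.pi * (2 ^ j * (1 - θ)) = ((2 ^ j : ℕ) : ℝ) * (2 * Real.pi) - 2 * Real.pi * (2 ^ j * θ) := by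
    push_cast; ring
  rw [this, Real.cos_nat_mul_two_pi_sub]

lemma telescope (y : ℝ) (hy : 0 < y) (M : ℕ) :
    ∑ m ∈ range M, 1 / (1 + y * ((m : ℝ) + 1)) ^ 2 ≤ 1 / y - 1 / (y * (1 + y * M)) := by
  induction M with
  | zero => simp
  | succ M ih =>
    rw [Finset.sum_range_succ]
    have h1 : (0 : ℝ) < 1 + y * M := by positivity
    have h2 : (0 : ℝ) < 1 + y * (M + 1) := by positivity
    have h3 : 1 / (1 + y * ((M : ℝ) + 1)) ^ 2 ≤ 1 / (y * (1 + y * M)) - 1 / (y * (1 + y * (M + 1))) := by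
      have : 1 / (y * (1 + y * M)) - 1 / (y * (1 + y * (M + 1))) = 1 / ((1 + y * M) * (1 + y * (M + 1))) := by
        field_simp; ring
      rw [this]
      apply one_div_le_one_div_of_le (by positivity)
      rw [sq]
      apply mul_le_mul_of_nonneg_right _ h2.le
      nlinarith
    push_cast
    linarith

lemma telescope' (y : ℝ) (hy : 0 < y) (M : ℕ) :
    ∑ m ∈ range M, 1 / (1 + y * ((m : ℝ) + 1)) ^ 2 ≤ 1 / y := by
  have := telescope y hy M
  have h2 : (0 : ℝ) ≤ 1 / (y * (1 + y * M)) := by positivity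
  linarith

lemma sum_exp_le (σ : ℝ) (hσ : 4 ≤ σ) (J ℓ : ℕ) (hℓ : 0 < ℓ) :
    ∑ m ∈ range ℓ, Real.exp (-(σ ^ 2 * psir J ((m : ℝ) / ℓ))) ≤ 1 + 8 * (ℓ / (σ * 2 ^ J)) := by
  obtain ⟨M, rfl⟩ : ∃ M, ℓ = M + 1 := ⟨ℓ - 1, by omega⟩
  rw [Finset.sum_range_succ']
  set ℓ' : ℝ := ((M + 1 : ℕ) : ℝ) with hℓ'
  have hℓ0 : 0 < ℓ' := by positivity
  have hσ0 : 0 < σ := by linarith
  set y : ℝ := σ * 2 ^ J / ℓ' with hy
  have hy0 : 0 < y := by positivity
  have hzero : psir J (((0 : ℕ) : ℝ) / ℓ') = 0 := by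
    simp [psir]
  rw [hzero]
  simp only [mul_zero, neg_zero, Real.exp_zero]
  have hterm : ∀ m ∈ range M, Real.exp (-(σ ^ 2 * psir J (((m + 1 : ℕ) : ℝ) / ℓ'))) ≤
      4 * (1 / (1 + y * ((m : ℝ) + 1)) ^ 2) + 4 * (1 / (1 + y * (((M - 1 - m : ℕ) : ℝ) + 1)) ^ 2) := by
    intro m hm
    have hmM : m < M := Finset.mem_range.mp hm
    have hcast : (((M - 1 - m : ℕ) : ℝ) + 1) = ℓ' - (m + 1) := by
      rw [hℓ']
      have : M - 1 - m + 1 + (m + 1) = M + 1 := by omega
      have h2 : ((M - 1 - m + 1 + (m + 1) : ℕ) : ℝ) = ((M + 1 : ℕ) : ℝ) := by rw [this]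
      push_cast at h2 ⊢
      linarith
    have hp1 : 0 ≤ 4 * (1 / (1 + y * ((m : ℝ) + 1)) ^ 2) := by positivity
    have hp2 : 0 ≤ 4 * (1 / (1 + y * (((M - 1 - m : ℕ) : ℝ) + 1)) ^ 2) := by positivity
    have hmpos : (0 : ℝ) < (m : ℝ) + 1 := by positivity
    by_cases hhalf : ((m + 1 : ℕ) : ℝ) / ℓ' ≤ 1 / 2
    · have := exp_neg_le σ hσ J (((m + 1 : ℕ) : ℝ) / ℓ') (by positivity) hhalf
      have h2 : σ * (2 ^ J * (((m + 1 : ℕ) : ℝ) / ℓ')) = y * ((m : ℝ) + 1) := by
        rw [hy]; push_cast; ring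
      rw [h2] at this
      have h3 : 4 / (1 + y * ((m : ℝ) + 1)) ^ 2 = 4 * (1 / (1 + y * ((m : ℝ) + 1)) ^ 2) := by ring
      rw [h3] at this
      linarith
    · push Not at hhalf
      rw [← psir_symm]
      have h4 : 1 - ((m + 1 : ℕ) : ℝ) / ℓ' = (((M - 1 - m : ℕ) : ℝ) + 1) / ℓ' := by
        rw [hcast]; push_cast; field_simp
      have h5 : (0 : ℝ) < (((M - 1 - m : ℕ) : ℝ) + 1) / ℓ' := by positivity
      have := exp_neg_le σ hσ J (1 - ((m + 1 : ℕ) : ℝ) / ℓ') (by rw [h4]; exact h5) (by linarith)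
      have h2 : σ * (2 ^ J * (1 - ((m + 1 : ℕ) : ℝ) / ℓ')) = y * (((M - 1 - m : ℕ) : ℝ) + 1) := by
        rw [h4, hy]; ring
      rw [h2] at this
      have h3 : 4 / (1 + y * (((M - 1 - m : ℕ) : ℝ) + 1)) ^ 2
        = 4 * (1 / (1 + y * (((M - 1 - m : ℕ) : ℝ) + 1)) ^ 2) := by ring
      rw [h3] at this
      linarith
  have hsum := Finset.sum_le_sum hterm
  rw [Finset.sum_add_distrib, ← Finset.mul_sum, ← Finset.mul_sum] at hsum
  have hrefl : ∑ m ∈ range M, 1 / (1 + y * (((M - 1 - m : ℕ) : ℝ) + 1)) ^ 2 =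
      ∑ m ∈ range M, 1 / (1 + y * ((m : ℝ) + 1)) ^ 2 :=
    Finset.sum_range_reflect (fun m : ℕ => 1 / (1 + y * ((m : ℝ) + 1)) ^ 2) M
  rw [hrefl] at hsum
  have htel := telescope' y hy0 M
  have hfin : 8 * (ℓ' / (σ * 2 ^ J)) = 8 * (1 / y) := by
    rw [hy]; field_simp
  rw [hfin]
  linarith

section Prob
variable {G : Type*} [AddCommGroup G] [DecidableEq G] [Fintype G]

lemma psi_nonneg_of (J : ℕ) (χ : AddChar G ℂ) (g : G) : 0 ≤ psi J (χ g) := by
  unfold psi
  refine Finset.sum_nonneg fun j _ => mul_nonneg (by positivity) ?_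
  have h1 : ((χ g) ^ 2 ^ j).re ≤ ‖(χ g) ^ 2 ^ j‖ := Complex.re_le_norm _
  rw [norm_pow, AddChar.norm_apply, one_pow] at h1
  linarith

omit [DecidableEq G] [Fintype G] in
lemma lam_psi (J : ℕ) (χ : AddChar G ℂ) (g : G) :
    ∑ j ∈ range (J + 1), (2 / 3 : ℝ) ^ j * (1 - (χ (2 ^ j • g)).re) = (2 / 3 : ℝ) ^ J * psi J (χ g) := by
  unfold psi
  rw [Finset.mul_sum]
  refine Finset.sum_congr rfl fun j hj => ?_
  have hj' : j ≤ J := Nat.lt_succ_iff.mp (Finset.mem_range.mp hj)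
  rw [AddChar.map_nsmul_eq_pow]
  have : (2 / 3 : ℝ) ^ J * (3 / 2 : ℝ) ^ (J - j) = (2 / 3 : ℝ) ^ j := by
    have h1 : (2 / 3 : ℝ) ^ J = (2 / 3 : ℝ) ^ j * (2 / 3 : ℝ) ^ (J - j) := by
      rw [← pow_add]; congr 1; omega
    rw [h1, mul_assoc, ← mul_pow]; norm_num
  rw [← mul_assoc, this]

lemma sum_char_exp_le (σ : ℝ) (hσ : 4 ≤ σ) (J : ℕ) (χ : AddChar G ℂ) :
    ∑ g : G, Real.exp (-(σ ^ 2 * psi J (χ g))) ≤
      (Fintype.card G : ℝ) * (1 / (orderOf χ : ℝ) + 8 / σ / 2 ^ J) := by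
  classical
  set ℓ := orderOf χ with hℓ
  have hℓ0 : 0 < ℓ := orderOf_pos χ
  have : NeZero ℓ := ⟨hℓ0.ne'⟩
  have hℓr : (0 : ℝ) < ℓ := by exact_mod_cast hℓ0
  have hσ0 : 0 < σ := by linarith
  -- every value is a root of unity
  have hval : ∀ g : G, ∃ m ∈ range ℓ, χ g = Complex.exp (2 * Real.pi * Complex.I * (((m : ℝ) / ℓ : ℝ) : ℂ)) := by
    intro g
    have h1 : χ ^ ℓ = 1 := pow_orderOf_eq_one χ
    have h2 : (χ g) ^ ℓ = 1 := by
      have h2 := congrArg (fun (c : AddChar G ℂ) => c g) h1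
      simpa [AddChar.pow_apply] using h2
    have h3 : χ g ≠ 0 := by
      intro h; rw [h, zero_pow hℓ0.ne'] at h2; exact zero_ne_one h2
    have h4 : (Units.mk0 (χ g) h3) ∈ rootsOfUnity ℓ ℂ := by
      rw [mem_rootsOfUnity]
      ext
      simpa using h2
    rw [Complex.mem_rootsOfUnity] at h4
    obtain ⟨m, hm, hm2⟩ := h4
    refine ⟨m, Finset.mem_range.mpr hm, ?_⟩
    rw [Units.val_mk0] at hm2
    rw [← hm2]
    push_cast
    rfl
  set F : ℂ → ℝ := fun z => Real.exp (-(σ ^ 2 * psi J z)) with hF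
  set ζ : ℕ → ℂ := fun m => Complex.exp (2 * Real.pi * Complex.I * (((m : ℝ) / ℓ : ℝ) : ℂ)) with hζ
  have h1 : ∑ g : G, F (χ g) ≤ ∑ g : G, ∑ m ∈ range ℓ, if χ g = ζ m then F (ζ m) else 0 := by
    refine Finset.sum_le_sum fun g _ => ?_
    obtain ⟨m, hm, hm2⟩ := hval g
    have h2 : (if χ g = ζ m then F (ζ m) else 0) = F (χ g) := by
      rw [if_pos hm2]; rw [hm2]
    rw [← h2]
    refine Finset.single_le_sum (f := fun m => if χ g = ζ m then F (ζ m) else 0) (fun j _ => ?_) hm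
    split_ifs
    · exact (Real.exp_pos _).le
    · exact le_refl _
  have h2 : ∑ g : G, ∑ m ∈ range ℓ, (if χ g = ζ m then F (ζ m) else 0) =
      ∑ m ∈ range ℓ, (((univ : Finset G).filter (fun g => χ g = ζ m)).card : ℝ) * F (ζ m) := by
    rw [Finset.sum_comm]
    refine Finset.sum_congr rfl fun m _ => ?_
    rw [← Finset.sum_filter]
    simp
  have h3 : ∑ m ∈ range ℓ, (((univ : Finset G).filter (fun g => χ g = ζ m)).card : ℝ) * F (ζ m) ≤
      ∑ m ∈ range ℓ, ((Fintype.card G : ℝ) / ℓ) * F (ζ m) := by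
    refine Finset.sum_le_sum fun m _ => ?_
    refine mul_le_mul_of_nonneg_right ?_ (Real.exp_pos _).le
    rw [le_div_iff₀ hℓr]
    have := order_mul_fibre_le χ (ζ m)
    have h4 : ((orderOf χ * ((univ : Finset G).filter (fun g => χ g = ζ m)).card : ℕ) : ℝ) ≤ Fintype.card G := by
      exact_mod_cast this
    push_cast at h4
    rw [mul_comm]
    exact h4
  have h4 : ∑ m ∈ range ℓ, F (ζ m) ≤ 1 + 8 * (ℓ / (σ * 2 ^ J)) := by
    have := sum_exp_le σ hσ J ℓ hℓ0
    refine le_trans (le_of_eq ?_) this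
    refine Finset.sum_congr rfl fun m _ => ?_
    simp only [hF, hζ]
    rw [psi_exp]
  calc ∑ g : G, Real.exp (-(σ ^ 2 * psi J (χ g))) ≤ _ := h1
    _ = _ := h2
    _ ≤ _ := h3
    _ = ((Fintype.card G : ℝ) / ℓ) * ∑ m ∈ range ℓ, F (ζ m) := by rw [Finset.mul_sum]
    _ ≤ ((Fintype.card G : ℝ) / ℓ) * (1 + 8 * (ℓ / (σ * 2 ^ J))) :=
        mul_le_mul_of_nonneg_left h4 (by positivity)
    _ = _ := by field_simp

/-- tuples for which `χ` is bad -/
lemma card_bad_char_le (σ : ℝ) (hσ : 4 ≤ σ) (J k : ℕ) (c' : ℝ) (χ : AddChar G ℂ) :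
    ((((univ : Finset (Fin k → G)).filter (fun Z => ∑ i, psi J (χ (Z i)) ≤ c' * k)).card : ℕ) : ℝ) ≤
      (Fintype.card G : ℝ) ^ k *
        (Real.exp (σ ^ 2 * c') * (1 / (orderOf χ : ℝ) + 8 / σ / 2 ^ J)) ^ k := by
  classical
  have h1 : ((((univ : Finset (Fin k → G)).filter (fun Z => ∑ i, psi J (χ (Z i)) ≤ c' * k)).card : ℕ) : ℝ)
      ≤ ∑ Z : Fin k → G, Real.exp (σ ^ 2 * (c' * k)) * ∏ i, Real.exp (-(σ ^ 2 * psi J (χ (Z i)))) := by
    rw [Finset.card_eq_sum_ones, Finset.sum_filter]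
    push_cast
    refine Finset.sum_le_sum fun Z _ => ?_
    rw [← Real.exp_sum, ← Real.exp_add]
    split_ifs with h
    · rw [← Real.exp_zero]
      apply Real.exp_le_exp.mpr
      rw [Finset.sum_neg_distrib, ← Finset.mul_sum]
      nlinarith [sq_nonneg σ, mul_nonneg (sq_nonneg σ) (sub_nonneg.mpr h)]
    · exact (Real.exp_pos _).le
  have hpow : ∑ Z : Fin k → G, ∏ i, Real.exp (-(σ ^ 2 * psi J (χ (Z i)))) =
      (∑ g : G, Real.exp (-(σ ^ 2 * psi J (χ g)))) ^ k :=
    (Fintype.sum_pow (fun g : G => Real.exp (-(σ ^ 2 * psi J (χ g)))) k).symm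
  rw [← Finset.mul_sum, hpow] at h1
  refine h1.trans ?_
  have h2 := sum_char_exp_le σ hσ J χ
  have h3 : 0 ≤ ∑ g : G, Real.exp (-(σ ^ 2 * psi J (χ g))) :=
    Finset.sum_nonneg fun g _ => (Real.exp_pos _).le
  have h4 := pow_le_pow_left₀ h3 h2 k
  calc _ ≤ Real.exp (σ ^ 2 * (c' * k)) *
        ((Fintype.card G : ℝ) * (1 / (orderOf χ : ℝ) + 8 / σ / 2 ^ J)) ^ k :=
          mul_le_mul_of_nonneg_left h4 (Real.exp_pos _).le
    _ = _ := by
      rw [mul_pow, mul_pow, ← Real.exp_nat_mul]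
      have : σ ^ 2 * (c' * k) = k * (σ ^ 2 * c') := by ring
      rw [this]; ring

lemma sum_order_le (k e : ℕ) (he : 2 ≤ e) (hk : AddGroup.rank G + e = k) :
    ∑ χ ∈ (univ : Finset (AddChar G ℂ)).erase 0, (1 / (orderOf χ : ℝ)) ^ k ≤ 4 * (1 / 2 : ℝ) ^ e := by
  classical
  set n := Fintype.card (AddChar G ℂ) with hn
  have hmaps : ∀ χ ∈ (univ : Finset (AddChar G ℂ)).erase 0, orderOf χ ∈ Finset.Icc 2 n := by
    intro χ hχ
    rw [Finset.mem_Icc]
    have h1 : 0 < orderOf χ := orderOf_pos χ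
    have h2 : orderOf χ ≠ 1 := by
      rw [Ne, orderOf_eq_one_iff]
      intro h
      exact (Finset.mem_erase.mp hχ).1 h
    exact ⟨by omega, orderOf_le_card_univ⟩
  rw [← Finset.sum_fiberwise_of_maps_to hmaps]
  have h1 : ∀ ℓ ∈ Finset.Icc 2 n,
      ∑ χ ∈ ((univ : Finset (AddChar G ℂ)).erase 0).filter (fun χ => orderOf χ = ℓ),
        (1 / (orderOf χ : ℝ)) ^ k ≤ 4 * (1 / 2 : ℝ) ^ e * (1 / ((ℓ : ℝ) - 1) - 1 / ℓ) := by
    intro ℓ hℓ
    have hℓ2 : 2 ≤ ℓ := (Finset.mem_Icc.mp hℓ).1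
    have hℓr : (2 : ℝ) ≤ ℓ := by exact_mod_cast hℓ2
    have h2 : ∑ χ ∈ ((univ : Finset (AddChar G ℂ)).erase 0).filter (fun χ => orderOf χ = ℓ),
        (1 / (orderOf χ : ℝ)) ^ k =
        ((((univ : Finset (AddChar G ℂ)).erase 0).filter (fun χ => orderOf χ = ℓ)).card : ℝ)
          * (1 / (ℓ : ℝ)) ^ k := by
      rw [← nsmul_eq_mul, ← Finset.sum_const]
      refine Finset.sum_congr rfl fun χ hχ => ?_
      rw [(Finset.mem_filter.mp hχ).2]
    rw [h2]
    have h3 : ((((univ : Finset (AddChar G ℂ)).erase 0).filter (fun χ => orderOf χ = ℓ)).card : ℝ)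
        ≤ (ℓ : ℝ) ^ AddGroup.rank G := by
      have h4 := card_char_order_le (G := G) ℓ (by omega)
      have h5 : (((univ : Finset (AddChar G ℂ)).erase 0).filter (fun χ => orderOf χ = ℓ)).card ≤
        ((univ : Finset (AddChar G ℂ)).filter (fun χ => orderOf χ = ℓ)).card := by
        apply Finset.card_le_card
        apply Finset.filter_subset_filter
        exact Finset.erase_subset _ _
      exact_mod_cast h5.trans h4
    have hℓ0 : (0 : ℝ) < ℓ := by linarith
    have h6 : (ℓ : ℝ) ^ AddGroup.rank G * (1 / (ℓ : ℝ)) ^ k = (1 / (ℓ : ℝ)) ^ e := by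
      rw [← hk, pow_add, ← mul_assoc, ← mul_pow]
      rw [mul_one_div_cancel hℓ0.ne']; simp
    have h7 : (1 / (ℓ : ℝ)) ^ e ≤ 4 * (1 / 2 : ℝ) ^ e * (1 / ((ℓ : ℝ) - 1) - 1 / ℓ) := by
      obtain ⟨f, rfl⟩ : ∃ f, e = f + 2 := ⟨e - 2, by omega⟩
      have h8 : (1 / (ℓ : ℝ)) ^ f ≤ (1 / 2 : ℝ) ^ f := by
        apply pow_le_pow_left₀ (by positivity)
        exact one_div_le_one_div_of_le (by norm_num) hℓr
      have h9 : (1 / (ℓ : ℝ)) ^ 2 ≤ 1 / ((ℓ : ℝ) - 1) - 1 / ℓ := by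
        have : 1 / ((ℓ : ℝ) - 1) - 1 / ℓ = 1 / (((ℓ : ℝ) - 1) * ℓ) := by
          have : (ℓ : ℝ) - 1 ≠ 0 := by linarith
          field_simp; ring
        rw [this, one_div_pow]
        apply one_div_le_one_div_of_le
        · apply mul_pos <;> linarith
        · nlinarith
      have h10 : (0 : ℝ) ≤ 1 / ((ℓ : ℝ) - 1) - 1 / ℓ := le_trans (by positivity) h9
      calc (1 / (ℓ : ℝ)) ^ (f + 2) = (1 / (ℓ : ℝ)) ^ f * (1 / (ℓ : ℝ)) ^ 2 := by rw [pow_add]
        _ ≤ (1 / 2 : ℝ) ^ f * (1 / ((ℓ : ℝ) - 1) - 1 / ℓ) :=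
          mul_le_mul h8 h9 (by positivity) (by positivity)
        _ = _ := by rw [pow_add]; ring
    calc _ ≤ (ℓ : ℝ) ^ AddGroup.rank G * (1 / (ℓ : ℝ)) ^ k :=
          mul_le_mul_of_nonneg_right h3 (by positivity)
      _ = _ := h6
      _ ≤ _ := h7
  refine (Finset.sum_le_sum h1).trans ?_
  rw [← Finset.mul_sum]
  have htel : ∀ N : ℕ, ∑ ℓ ∈ Finset.Icc 2 N, (1 / ((ℓ : ℝ) - 1) - 1 / ℓ) ≤ 1 := by
    intro N
    have h2 : ∀ M : ℕ, ∑ ℓ ∈ Finset.Icc 2 (M + 1), (1 / ((ℓ : ℝ) - 1) - 1 / ℓ) = 1 - 1 / ((M : ℝ) + 1) := by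
      intro M
      induction M with
      | zero => simp
      | succ M ih =>
        rw [Finset.sum_Icc_succ_top (by omega), ih]
        push_cast
        have h5 : ((M : ℝ) + 1 + 1 - 1) = (M : ℝ) + 1 := by ring
        rw [h5]; ring
    rcases Nat.eq_zero_or_pos N with h | h
    · subst h; simp
    · obtain ⟨M, rfl⟩ : ∃ M, N = M + 1 := ⟨N - 1, by omega⟩
      rw [h2 M]
      have : (0 : ℝ) ≤ 1 / ((M : ℝ) + 1) := by positivity
      linarith
  have := htel n
  have hp : (0 : ℝ) ≤ 4 * (1 / 2 : ℝ) ^ e := by positivity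
  nlinarith

end Prob

/-! ### The Cheeger constant of the random Cayley graph -/

section Main

/-- Number of edges (with multiplicity) of the Cayley multigraph on `G` with edges `{g, g + Z i}`
(`g ∈ G`, `i < k`) that join `S` to its complement. -/
def cutEdges {G : Type*} [AddCommGroup G] [Fintype G] [DecidableEq G] {k : ℕ}
    (Z : Fin k → G) (S : Finset G) : ℕ :=
  ((univ : Finset (G × Fin k)).filter (fun e => ¬ (e.1 ∈ S ↔ e.1 + Z e.2 ∈ S))).card

/-- The Cheeger constant `Φ_* = (1/(2k)) min_{1 ≤ |S| ≤ |G|/2} (1/|S|) #{edges between S and Sᶜ}` of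
the `2k`-regular Cayley multigraph with edges `{g, g + Z i}`. -/
noncomputable def cheeger {G : Type*} [AddCommGroup G] [Fintype G] [DecidableEq G] {k : ℕ}
    (Z : Fin k → G) : ℝ :=
  (1 / (2 * (k : ℝ))) * ⨅ S : {S : Finset G // 1 ≤ S.card ∧ 2 * S.card ≤ Fintype.card G},
    (cutEdges Z S.1 : ℝ) / (S.1.card : ℝ)

/-- Probability of a property `p` of `(Z_1, ..., Z_k)` when `Z_1, ..., Z_k` are independent and
uniform on `G` (that is, the tuple is uniform on `G ^ k`). -/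
noncomputable def prob {G : Type*} [Fintype G] {k : ℕ} (p : (Fin k → G) → Prop) : ℝ :=
  (Nat.card {Z : Fin k → G // p Z} : ℝ) / (Nat.card (Fin k → G) : ℝ)

variable {G : Type*} [AddCommGroup G] [Fintype G] [DecidableEq G]

lemma sum_out_le_cutEdges {k : ℕ} (Z : Fin k → G) (S : Finset G) :
    ∑ i, out S (Z i) ≤ cutEdges Z S := by
  classical
  have h1 : ∑ i, out S (Z i) =
      ((univ : Finset (G × Fin k)).filter (fun e => e.1 ∈ S ∧ e.1 + Z e.2 ∉ S)).card := by
    rw [Finset.card_filter, ← Finset.univ_product_univ, Finset.sum_product_right]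
    refine Finset.sum_congr rfl fun i _ => ?_
    unfold out
    rw [← Finset.card_filter]
    congr 1
    ext g
    simp
  rw [h1]
  unfold cutEdges
  apply Finset.card_le_card
  intro e he
  simp only [mem_filter, mem_univ, true_and] at he ⊢
  tauto

lemma cheeger_gt {k : ℕ} (hk : 0 < k) (hG : 2 ≤ Fintype.card G) (Z : Fin k → G) (J : ℕ) (c' : ℝ)
    (hc' : 0 < c')
    (hZ : ∀ χ : AddChar G ℂ, χ ≠ 0 → c' * k < ∑ i, psi J (χ (Z i))) :
    c' / 16 * (1 / 2 ^ J) ≤ cheeger Z := by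
  classical
  have hkr : (0 : ℝ) < k := by exact_mod_cast hk
  have : Nonempty {S : Finset G // 1 ≤ S.card ∧ 2 * S.card ≤ Fintype.card G} :=
    ⟨⟨{0}, by simp, by simpa using hG⟩⟩
  have hΛ : ∑ j ∈ range (J + 1), (2 / 3 : ℝ) ^ j * 2 ^ j ≤ 4 * (4 / 3 : ℝ) ^ J := by
    have h1 : ∀ j ∈ range (J + 1), (2 / 3 : ℝ) ^ j * 2 ^ j = (4 / 3 : ℝ) ^ j := by
      intro j _; rw [← mul_pow]; norm_num
    rw [Finset.sum_congr rfl h1, geom_sum_eq (by norm_num)]
    rw [pow_succ]
    have : (0 : ℝ) < (4 / 3 : ℝ) ^ J := by positivity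
    rw [div_le_iff₀ (by norm_num)]
    linarith
  have hkey : ∀ S : {S : Finset G // 1 ≤ S.card ∧ 2 * S.card ≤ Fintype.card G},
      c' * k / 8 * (1 / 2 ^ J) ≤ (cutEdges Z S.1 : ℝ) / (S.1.card : ℝ) := by
    rintro ⟨S, hS1, hS2⟩
    simp only
    have hScard : (0 : ℝ) < S.card := by exact_mod_cast hS1
    rw [le_div_iff₀ hScard]
    have h1 := key_ineq Z J (fun j => (2 / 3 : ℝ) ^ j) (fun j => by positivity)
      ((2 / 3 : ℝ) ^ J * (c' * k)) (by positivity) (by
        intro χ hχ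
        have h2 : ∑ i, ∑ j ∈ range (J + 1), (2 / 3 : ℝ) ^ j * (1 - (χ (2 ^ j • Z i)).re)
            = (2 / 3 : ℝ) ^ J * ∑ i, psi J (χ (Z i)) := by
          rw [Finset.mul_sum]
          exact Finset.sum_congr rfl fun i _ => lam_psi J χ (Z i)
        rw [h2]
        exact mul_le_mul_of_nonneg_left (hZ χ hχ).le (by positivity)) S hS2
    have h3 : (∑ i, (out S (Z i) : ℝ)) ≤ cutEdges Z S := by
      exact_mod_cast sum_out_le_cutEdges Z S
    have h4 : (2 / 3 : ℝ) ^ J * (c' * k) * S.card / 2 ≤ (4 * (4 / 3 : ℝ) ^ J) * cutEdges Z S := by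
      refine h1.trans ?_
      apply mul_le_mul hΛ h3
      · exact Finset.sum_nonneg fun i _ => by positivity
      · positivity
    have h5 : (2 / 3 : ℝ) ^ J = (4 / 3 : ℝ) ^ J * (1 / 2 ^ J) := by
      rw [← one_div_pow, ← mul_pow]; norm_num
    rw [h5] at h4
    have h6 : (0 : ℝ) < (4 / 3 : ℝ) ^ J := by positivity
    have h7 : (4 / 3 : ℝ) ^ J * (c' * k / 8 * (1 / 2 ^ J) * S.card) ≤ (4 / 3 : ℝ) ^ J * cutEdges Z S := by
      nlinarith
    exact le_of_mul_le_mul_left h7 h6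
  have h8 : c' * k / 8 * (1 / 2 ^ J) ≤
      ⨅ S : {S : Finset G // 1 ≤ S.card ∧ 2 * S.card ≤ Fintype.card G},
        (cutEdges Z S.1 : ℝ) / (S.1.card : ℝ) := le_ciInf hkey
  unfold cheeger
  calc c' / 16 * (1 / 2 ^ J) = (1 / (2 * (k : ℝ))) * (c' * k / 8 * (1 / 2 ^ J)) := by
        field_simp; ring
    _ ≤ _ := mul_le_mul_of_nonneg_left h8 (by positivity)

/-- the quantitative bound on the bad tuples -/
lemma bad_card_le (σ : ℝ) (hσ : 4 ≤ σ) (J k e : ℕ) (c' ρ : ℝ)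
    (hρ : (1 + 4 * (8 / σ)) * Real.exp (σ ^ 2 * c') ≤ ρ)
    (hJ : Fintype.card G ≤ (2 ^ J) ^ k) (he : 2 ≤ e) (hk : AddGroup.rank G + e = k) :
    ((((univ : Finset (Fin k → G)).filter
      (fun Z => ∃ χ : AddChar G ℂ, χ ≠ 0 ∧ ∑ i, psi J (χ (Z i)) ≤ c' * k)).card : ℕ) : ℝ) ≤
      (Fintype.card G : ℝ) ^ k * (4 * ρ ^ k * (1 / 2) ^ e + (ρ / 4) ^ k) := by
  classical
  have hσ0 : 0 < σ := by linarith
  have hexp := Real.exp_pos (σ ^ 2 * c')
  have hn0 : (0 : ℝ) < Fintype.card G := by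
    have : 0 < Fintype.card G := Fintype.card_pos
    exact_mod_cast this
  have hρ0 : 0 < ρ := lt_of_lt_of_le (by positivity) hρ
  have h1 : ((((univ : Finset (Fin k → G)).filter
      (fun Z => ∃ χ : AddChar G ℂ, χ ≠ 0 ∧ ∑ i, psi J (χ (Z i)) ≤ c' * k)).card : ℕ) : ℝ) ≤
      ∑ χ ∈ (univ : Finset (AddChar G ℂ)).erase 0,
        ((((univ : Finset (Fin k → G)).filter (fun Z => ∑ i, psi J (χ (Z i)) ≤ c' * k)).card : ℕ) : ℝ) := by
    have h2 : ((univ : Finset (Fin k → G)).filter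
      (fun Z => ∃ χ : AddChar G ℂ, χ ≠ 0 ∧ ∑ i, psi J (χ (Z i)) ≤ c' * k)) ⊆
      ((univ : Finset (AddChar G ℂ)).erase 0).biUnion
        (fun χ => (univ : Finset (Fin k → G)).filter (fun Z => ∑ i, psi J (χ (Z i)) ≤ c' * k)) := by
      intro Z hZ
      simp only [mem_filter, mem_univ, true_and, mem_biUnion, mem_erase] at hZ ⊢
      obtain ⟨χ, hχ, h⟩ := hZ
      exact ⟨χ, ⟨hχ, trivial⟩, h⟩
    have h3 := (card_le_card h2).trans card_biUnion_le
    exact_mod_cast h3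
  refine h1.trans ?_
  have h2 : ∀ χ ∈ (univ : Finset (AddChar G ℂ)).erase 0,
      ((((univ : Finset (Fin k → G)).filter (fun Z => ∑ i, psi J (χ (Z i)) ≤ c' * k)).card : ℕ) : ℝ) ≤
      (Fintype.card G : ℝ) ^ k * (ρ ^ k * (1 / (orderOf χ : ℝ)) ^ k + (ρ / 4) ^ k * (1 / 2 ^ J) ^ k) := by
    intro χ _
    refine (card_bad_char_le σ hσ J k c' χ).trans ?_
    apply mul_le_mul_of_nonneg_left _ (by positivity)
    have hℓ0 : (0 : ℝ) < orderOf χ := by exact_mod_cast orderOf_pos χ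
    have hJ0 : (0 : ℝ) < 2 ^ J := by positivity
    by_cases hcase : (orderOf χ : ℝ) ≤ 4 * 2 ^ J
    · have h3 : Real.exp (σ ^ 2 * c') * (1 / (orderOf χ : ℝ) + 8 / σ / 2 ^ J) ≤
          ρ * (1 / (orderOf χ : ℝ)) := by
        have h4 : 1 / (2 : ℝ) ^ J ≤ 4 * (1 / (orderOf χ : ℝ)) := by
          rw [mul_one_div, div_le_div_iff₀ hJ0 hℓ0]; linarith
        have h5 : 8 / σ / 2 ^ J ≤ 4 * (8 / σ) * (1 / (orderOf χ : ℝ)) := by
          have : 8 / σ / 2 ^ J = 8 / σ * (1 / 2 ^ J) := by ring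
          rw [this]
          have h8 : 0 < 8 / σ := by positivity
          nlinarith
        calc _ ≤ Real.exp (σ ^ 2 * c') * ((1 + 4 * (8 / σ)) * (1 / (orderOf χ : ℝ))) := by
              apply mul_le_mul_of_nonneg_left _ hexp.le
              linarith
          _ = ((1 + 4 * (8 / σ)) * Real.exp (σ ^ 2 * c')) * (1 / (orderOf χ : ℝ)) := by ring
          _ ≤ _ := mul_le_mul_of_nonneg_right hρ (by positivity)
      have h6 := pow_le_pow_left₀ (by positivity) h3 k
      rw [mul_pow ρ] at h6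
      have : 0 ≤ (ρ / 4) ^ k * (1 / 2 ^ J : ℝ) ^ k := by positivity
      linarith
    · push Not at hcase
      have h3 : Real.exp (σ ^ 2 * c') * (1 / (orderOf χ : ℝ) + 8 / σ / 2 ^ J) ≤
          ρ / 4 * (1 / 2 ^ J) := by
        have h4 : 1 / (orderOf χ : ℝ) ≤ 1 / 4 * (1 / 2 ^ J) := by
          rw [one_div_mul_one_div]
          exact one_div_le_one_div_of_le (by positivity) hcase.le
        calc _ ≤ Real.exp (σ ^ 2 * c') * ((1 + 4 * (8 / σ)) / 4 * (1 / 2 ^ J)) := by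
              apply mul_le_mul_of_nonneg_left _ hexp.le
              have : 8 / σ / 2 ^ J = 8 / σ * (1 / 2 ^ J) := by ring
              rw [this]
              linarith
          _ = ((1 + 4 * (8 / σ)) * Real.exp (σ ^ 2 * c')) / 4 * (1 / 2 ^ J) := by ring
          _ ≤ _ := by
            apply mul_le_mul_of_nonneg_right _ (by positivity)
            linarith
      have h6 := pow_le_pow_left₀ (by positivity) h3 k
      rw [mul_pow (ρ / 4)] at h6
      have : 0 ≤ ρ ^ k * (1 / (orderOf χ : ℝ)) ^ k := by positivity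
      linarith
  refine (Finset.sum_le_sum h2).trans ?_
  rw [← Finset.mul_sum]
  apply mul_le_mul_of_nonneg_left _ (by positivity)
  rw [Finset.sum_add_distrib, ← Finset.mul_sum, Finset.sum_const, nsmul_eq_mul]
  have h3 := sum_order_le (G := G) k e he hk
  have h4 : ρ ^ k * ∑ χ ∈ (univ : Finset (AddChar G ℂ)).erase 0, (1 / (orderOf χ : ℝ)) ^ k ≤
      4 * ρ ^ k * (1 / 2) ^ e := by
    have := mul_le_mul_of_nonneg_left h3 (by positivity : (0 : ℝ) ≤ ρ ^ k)
    linarith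
  have h5 : ((((univ : Finset (AddChar G ℂ)).erase 0).card : ℕ) : ℝ) * ((ρ / 4) ^ k * (1 / 2 ^ J) ^ k) ≤
      (ρ / 4) ^ k := by
    have h6 : ((((univ : Finset (AddChar G ℂ)).erase 0).card : ℕ) : ℝ) ≤ (2 ^ J) ^ k := by
      have h7 : ((univ : Finset (AddChar G ℂ)).erase 0).card ≤ Fintype.card G := by
        calc _ ≤ (univ : Finset (AddChar G ℂ)).card := card_le_card (erase_subset _ _)
          _ = Fintype.card G := by rw [Finset.card_univ]; exact AddChar.card_eq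
      exact_mod_cast h7.trans hJ
    have h8 : ((2 : ℝ) ^ J) ^ k * (1 / 2 ^ J) ^ k = 1 := by
      rw [← mul_pow, mul_one_div_cancel (by positivity), one_pow]
    calc _ ≤ ((2 : ℝ) ^ J) ^ k * ((ρ / 4) ^ k * (1 / 2 ^ J) ^ k) :=
          mul_le_mul_of_nonneg_right h6 (by positivity)
      _ = (ρ / 4) ^ k * (((2 : ℝ) ^ J) ^ k * (1 / 2 ^ J) ^ k) := by ring
      _ = _ := by rw [h8, mul_one]
  linarith

end Main

universe u

/-- **Theorem.** For every `δ ∈ (0,1)` there is `c > 0` such that for every `ε ∈ (0,1)` there are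
`n₀` and `M` with: for every finite Abelian group `G` with `|G| ≥ n₀` and every `k ≥ M` with
`k - d(G) ≥ δ k` one has `Pr(Φ_*(G_k) ≤ c |G| ^ (-1/k)) ≤ ε`. -/
theorem result : ∀ δ ∈ Set.Ioo (0 : ℝ) 1, ∃ c > 0, ∀ ε ∈ Set.Ioo (0 : ℝ) 1, ∃ n₀ M : ℕ,
    ∀ (G : Type u) [AddCommGroup G] [Fintype G] [DecidableEq G] (k : ℕ),
      n₀ ≤ Fintype.card G → M ≤ k → δ * k ≤ (k : ℝ) - AddGroup.rank G →
      prob (fun Z : Fin k → G => cheeger Z ≤ c * (Fintype.card G : ℝ) ^ (-(1 / (k : ℝ)))) ≤ ε := by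
  intro δ hδ
  obtain ⟨hδ0, hδ1⟩ := hδ
  set r : ℝ := (2 : ℝ) ^ (δ / 4) with hr
  have hr1 : 1 < r := Real.one_lt_rpow (by norm_num) (by positivity)
  set σ : ℝ := max 4 (32 / (r - 1)) with hσ
  have hσ4 : 4 ≤ σ := le_max_left _ _
  have hσ0 : 0 < σ := by linarith
  have hση : 1 + 4 * (8 / σ) ≤ r := by
    have h1 : 32 / (r - 1) ≤ σ := le_max_right _ _
    have h2 : 0 < r - 1 := by linarith
    have h3 : 4 * (8 / σ) ≤ r - 1 := by
      rw [← mul_div_assoc, div_le_iff₀ hσ0]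
      rw [div_le_iff₀ h2] at h1
      linarith
    linarith
  set c' : ℝ := Real.log r / σ ^ 2 with hc'
  have hc'0 : 0 < c' := div_pos (Real.log_pos hr1) (by positivity)
  have hexp : Real.exp (σ ^ 2 * c') = r := by
    rw [hc', mul_div_cancel₀ _ (by positivity), Real.exp_log (by linarith)]
  set ρ : ℝ := r * r with hρ
  have hρle : (1 + 4 * (8 / σ)) * Real.exp (σ ^ 2 * c') ≤ ρ := by
    rw [hexp]
    exact mul_le_mul_of_nonneg_right hση (by linarith)
  have hρeq : ρ = (2 : ℝ) ^ (δ / 2) := by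
    rw [hρ, hr, ← Real.rpow_add (by norm_num)]
    congr 1; ring
  refine ⟨c' / 33, by positivity, ?_⟩
  intro ε hε
  obtain ⟨hε0, hε1⟩ := hε
  -- q = 2^{-δ/2}
  set q : ℝ := (2 : ℝ) ^ (-(δ / 2)) with hq
  have hq0 : 0 < q := by positivity
  have hq1 : q < 1 := Real.rpow_lt_one_of_one_lt_of_neg (by norm_num) (by linarith)
  have htend : Filter.Tendsto (fun k : ℕ => 5 * q ^ k) Filter.atTop (nhds (5 * 0)) :=
    (tendsto_pow_atTop_nhds_zero_of_lt_one hq0.le hq1).const_mul 5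
  rw [mul_zero] at htend
  obtain ⟨M₁, hM₁⟩ := (htend.eventually (gt_mem_nhds hε0)).exists_forall_of_atTop
  refine ⟨2, max (max M₁ 1) ⌈2 / δ⌉₊, ?_⟩
  intro G _ _ _ k hn hMk hδk
  have hkM₁ : M₁ ≤ k := le_trans (le_trans (le_max_left _ _) (le_max_left _ _)) hMk
  have hk1 : 1 ≤ k := le_trans (le_trans (le_max_right _ _) (le_max_left _ _)) hMk
  have hk0 : 0 < k := hk1
  have hkr : (0 : ℝ) < k := by exact_mod_cast hk0
  have hkδ : 2 / δ ≤ k := (Nat.le_ceil _).trans (by exact_mod_cast le_trans (le_max_right _ _) hMk)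
  have hkδ' : 2 ≤ δ * k := by
    rw [div_le_iff₀ hδ0] at hkδ; linarith
  -- e
  have hrank : AddGroup.rank G ≤ k := by
    have : (AddGroup.rank G : ℝ) ≤ k := by linarith
    exact_mod_cast this
  obtain ⟨e, he⟩ : ∃ e, AddGroup.rank G + e = k := ⟨k - AddGroup.rank G, by omega⟩
  have her : (AddGroup.rank G : ℝ) + e = k := by exact_mod_cast he
  have heδ : δ * k ≤ e := by linarith
  have he2 : 2 ≤ e := by
    have : (2 : ℝ) ≤ e := by linarith
    exact_mod_cast this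
  -- J
  have hexJ : ∃ J : ℕ, Fintype.card G ≤ (2 ^ J) ^ k := by
    refine ⟨Fintype.card G, ?_⟩
    calc Fintype.card G ≤ 2 ^ Fintype.card G := Nat.lt_two_pow_self.le
      _ ≤ (2 ^ Fintype.card G) ^ k := Nat.le_self_pow hk0.ne' _
  classical
  set J := Nat.find hexJ with hJdef
  have hJ : Fintype.card G ≤ (2 ^ J) ^ k := Nat.find_spec hexJ
  have hJ0 : J ≠ 0 := by
    intro h
    rw [h] at hJ
    simp at hJ
    omega
  have hJmin : (2 ^ (J - 1)) ^ k < Fintype.card G := by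
    have := Nat.find_min hexJ (m := J - 1) (by omega)
    omega
  have hn0 : (0 : ℝ) < Fintype.card G := by
    have : 0 < Fintype.card G := by omega
    exact_mod_cast this
  -- 2^(J-1) < n^{1/k}
  have hL : (2 : ℝ) ^ (J - 1) < (Fintype.card G : ℝ) ^ (1 / (k : ℝ)) := by
    have h1 : (((2 : ℝ) ^ (J - 1)) ^ k) < Fintype.card G := by exact_mod_cast hJmin
    have h2 : (((2 : ℝ) ^ (J - 1)) ^ k) ^ (1 / (k : ℝ)) < (Fintype.card G : ℝ) ^ (1 / (k : ℝ)) :=
      Real.rpow_lt_rpow (by positivity) h1 (by positivity)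
    rw [one_div] at h2 ⊢
    rwa [Real.pow_rpow_inv_natCast (by positivity) hk0.ne'] at h2
  have hL2 : (Fintype.card G : ℝ) ^ (-(1 / (k : ℝ))) ≤ 2 * (1 / 2 ^ J) := by
    rw [Real.rpow_neg hn0.le, ← one_div]
    have h1 : (2 : ℝ) ^ J = 2 * 2 ^ (J - 1) := by
      rw [← pow_succ']; congr 1; omega
    rw [h1, mul_one_div, div_mul_eq_div_div, div_self (by norm_num)]
    exact one_div_le_one_div_of_le (by positivity) hL.le
  -- good tuples have large cheeger constant
  have hgood : ∀ Z : Fin k → G, cheeger Z ≤ c' / 33 * (Fintype.card G : ℝ) ^ (-(1 / (k : ℝ))) →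
      ∃ χ : AddChar G ℂ, χ ≠ 0 ∧ ∑ i, psi J (χ (Z i)) ≤ c' * k := by
    intro Z hZ
    by_contra hcon
    push Not at hcon
    have h1 := cheeger_gt hk0 hn Z J c' hc'0 hcon
    have h2 : c' / 33 * (Fintype.card G : ℝ) ^ (-(1 / (k : ℝ))) ≤ c' / 33 * (2 * (1 / 2 ^ J)) :=
      mul_le_mul_of_nonneg_left hL2 (by positivity)
    have h3 : (0 : ℝ) < 1 / 2 ^ J := by positivity
    have h4 : c' / 33 * (2 * (1 / 2 ^ J)) < c' / 16 * (1 / 2 ^ J) := by
      have : 0 < c' * (1 / 2 ^ J) := by positivity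
      nlinarith
    linarith
  have hbad := bad_card_le (G := G) σ hσ4 J k e c' ρ hρle hJ he2 he
  have hprob : prob (fun Z : Fin k → G => cheeger Z ≤ c' / 33 * (Fintype.card G : ℝ) ^ (-(1 / (k : ℝ))))
      ≤ 4 * ρ ^ k * (1 / 2) ^ e + (ρ / 4) ^ k := by
    unfold prob
    have hcard : (Nat.card (Fin k → G) : ℝ) = (Fintype.card G : ℝ) ^ k := by
      rw [Nat.card_eq_fintype_card, Fintype.card_fun, Fintype.card_fin]; push_cast; rfl
    rw [hcard, div_le_iff₀ (by positivity)]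
    have h1 : Nat.card {Z : Fin k → G // cheeger Z ≤ c' / 33 * (Fintype.card G : ℝ) ^ (-(1 / (k : ℝ)))} ≤
        ((univ : Finset (Fin k → G)).filter
          (fun Z => ∃ χ : AddChar G ℂ, χ ≠ 0 ∧ ∑ i, psi J (χ (Z i)) ≤ c' * k)).card := by
      rw [Nat.card_eq_fintype_card, Fintype.card_subtype]
      apply Finset.card_le_card
      intro Z hZ
      simp only [mem_filter, mem_univ, true_and] at hZ ⊢
      exact hgood Z hZ
    calc _ ≤ ((((univ : Finset (Fin k → G)).filter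
          (fun Z => ∃ χ : AddChar G ℂ, χ ≠ 0 ∧ ∑ i, psi J (χ (Z i)) ≤ c' * k)).card : ℕ) : ℝ) := by
          exact_mod_cast h1
      _ ≤ _ := hbad
      _ = _ := by ring
  refine hprob.trans ?_
  have h2e : (1 / 2 : ℝ) ^ e ≤ ((2 : ℝ) ^ (-δ)) ^ k := by
    have h1 : (1 / 2 : ℝ) ^ e = (2 : ℝ) ^ (-(e : ℝ)) := by
      rw [Real.rpow_neg (by norm_num), Real.rpow_natCast, one_div, inv_pow]
    have h2 : ((2 : ℝ) ^ (-δ)) ^ k = (2 : ℝ) ^ (-(δ * k)) := by
      rw [← Real.rpow_natCast, ← Real.rpow_mul (by norm_num)]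
      congr 1; ring
    rw [h1, h2]
    exact Real.rpow_le_rpow_of_exponent_le (by norm_num) (by linarith)
  have hρk : ρ ^ k * (1 / 2 : ℝ) ^ e ≤ q ^ k := by
    have h1 : ρ ^ k * ((2 : ℝ) ^ (-δ)) ^ k = q ^ k := by
      rw [← mul_pow, hρeq, hq, ← Real.rpow_add (by norm_num)]
      congr 2; ring
    rw [← h1]
    have hρpos : 0 < ρ := by rw [hρeq]; positivity
    exact mul_le_mul_of_nonneg_left h2e (by positivity)
  have hρ4 : (ρ / 4) ^ k ≤ q ^ k := by
    have hρpos : 0 < ρ := by rw [hρeq]; positivity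
    apply pow_le_pow_left₀ (by positivity)
    have h1 : q * ρ = 1 := by
      rw [hρeq, hq, ← Real.rpow_add (by norm_num)]; simp
    have h2 : ρ ≤ 2 := by
      rw [hρeq]
      calc (2 : ℝ) ^ (δ / 2) ≤ (2 : ℝ) ^ (1 : ℝ) :=
            Real.rpow_le_rpow_of_exponent_le (by norm_num) (by linarith)
        _ = 2 := by simp
    have h3 : q = 1 / ρ := by field_simp; exact h1
    rw [h3, div_le_div_iff₀ (by norm_num) hρpos]
    nlinarith
  have h5 := hM₁ k hkM₁
  have h6 : 4 * ρ ^ k * (1 / 2) ^ e + (ρ / 4) ^ k ≤ 5 * q ^ k := by nlinarith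
  exact h6.trans h5.le

end Pool.Agent.Results.MP_2a19a6_pr.CheegerOrder

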